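import Pool.Agent.MP7a5e6c.HC8
import Pool.Agent.MP7a5e6c.Transfer

set_option autoImplicit false
open scoped Classical

namespace Pool.Agent.Results.MP_7a5e6c_co.HamiltonianCanonicalOrder

open Pool.Agent.MP7a5e6c

/-- Every triangulation with a Hamiltonian canonical order (a canonical order that starts with an
outer edge and in which every new vertex is adjacent to the previous one) is minimum weight
drawable; it is even the unique minimum weight triangulation of a suitable point set. -/
theorem result {n : ℕ} {G : SimpleGraph (Fin n)} {L R : List (Fin n)} (h : HCO n G L R) :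
    ∃ f : Fin n → EuclideanSpace ℝ (Fin 2), Function.Injective f ∧ IsTri f G ∧
      (∀ E : SimpleGraph (Fin n), IsTri f E → E ≠ G → weight f G < weight f E) := by
  obtain ⟨X, Y, hgp0, h1, h2⟩ := h.mw
  set f : Fin n → Pt := fun i => !₂[X i, Y i] with hf
  have hX : cX f = X := by funext i; simp [cX, hf]
  have hY : cY f = Y := by funext i; simp [cY, hf]
  have hgp : GP (cX f) (cY f) := by rw [hX, hY]; exact hgp0
  refine ⟨f, injective_of_gp f hgp, ?_, ?_⟩
  · rw [isTri_iff f hgp, hX, hY]; exact h1
  · intro E hE hne
    rw [isTri_iff f hgp, hX, hY] at hE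
    rw [weight_eq, weight_eq, hX, hY]
    exact h2 E hE hne

end Pool.Agent.Results.MP_7a5e6c_co.HamiltonianCanonicalOrder
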