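import Pool.Agent.MP7a5e6c.DI11

set_option autoImplicit false
open scoped Classical

namespace Pool.Agent.Results.MP_7a5e6c_co.IndependentInterior

open Pool.Agent.MP7a5e6c

/-- Every Delaunay drawing `G` of a set `f` of points, not all on one line, in which no two
interior vertices are adjacent is minimum weight drawable; it is even the unique minimum weight
triangulation of a suitable point set `g`. -/
theorem result {n : ℕ} (f : Fin n → EuclideanSpace ℝ (Fin 2)) (hf : Function.Injective f)
    (hcol : ¬ Collinear ℝ (Set.range f))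
    (G : SimpleGraph (Fin n)) (hT : IsTri f G)
    (hD : ∀ a b, a ≠ b → (G.Adj a b ↔ EmptyCircle f a b))
    (hI : ∀ a b, G.Adj a b → Outer f a ∨ Outer f b) :
    ∃ g : Fin n → EuclideanSpace ℝ (Fin 2), Function.Injective g ∧ IsTri g G ∧
      ∀ E : SimpleGraph (Fin n), IsTri g E → E ≠ G → weight g G < weight g E := by
  obtain ⟨x, y, z, hxyz⟩ := exists_ori f hf hcol
  have hne := ne_of_ori hxyz
  have hcard : ∀ a b : Fin n, ∃ c, c ≠ a ∧ c ≠ b := by
    intro a b
    by_contra hc
    push Not at hc
    have h1 := hc x
    have h2 := hc y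
    have h3 := hc z
    by_cases e1 : x = a
    · have e2 : y = b := h2 (fun h => hne.1 (e1.trans h.symm))
      have e3 : z = b := h3 (fun h => hne.2.1 (e1.trans h.symm))
      exact hne.2.2 (e2.trans e3.symm)
    · have e0 : x = b := h1 e1
      by_cases e2 : y = a
      · have e3 : z = b := h3 (fun h => hne.2.2 (e2.trans h.symm))
        exact hne.2.1 (e0.trans e3.symm)
      · exact hne.1 (e0.trans (h2 e2).symm)
  obtain ⟨X', Y', D, hout⟩ := exists_pert f hT (inj_of_injective f hf)
    (fun a b hab => by rw [hD a b hab, emptyCircle_iff]) x y z hxyz hcard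
  exact mw_of_DT D (fun a b hab => (hI a b hab).imp (hout a) (hout b)) x y hne.1 hcard

end Pool.Agent.Results.MP_7a5e6c_co.IndependentInterior
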