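import Pool.Agent.MP7a5e6c.Step5
import Pool.Agent.MP7a5e6c.Transfer

set_option autoImplicit false
open scoped Classical

namespace Pool.Agent.Results.MP_7a5e6c_co.LinearCanonicalOrder

open Pool.Agent.MP7a5e6c

/-- Every triangulation with a linear canonical order is Delaunay drawable and minimum weight
drawable; a single point set shows both, and there the drawing is the unique minimum. -/
theorem result {n : ℕ} {G : SimpleGraph (Fin n)} {a : Fin n} {T : List (Fin n)}
    (h : LCO n G a T) :
    ∃ f : Fin n → EuclideanSpace ℝ (Fin 2), Function.Injective f ∧ IsTri f G ∧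
      (∀ b c, b ≠ c → (G.Adj b c ↔ EmptyCircle f b c)) ∧
      (∀ E : SimpleGraph (Fin n), IsTri f E → E ≠ G → weight f G < weight f E) := by
  obtain ⟨X, Y, hI⟩ := h.inv
  set f : Fin n → Pt := fun i => !₂[X i, Y i] with hf
  have hX : cX f = X := by funext i; simp [cX, hf]
  have hY : cY f = Y := by funext i; simp [cY, hf]
  have hgp : GP (cX f) (cY f) := by rw [hX, hY]; exact hI.gp
  refine ⟨f, injective_of_gp f hgp, ?_, ?_, ?_⟩
  · rw [isTri_iff f hgp, hX, hY]; exact hI.tri
  · intro b c hbc
    rw [emptyCircle_iff, hX, hY]; exact hI.del b c hbc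
  · intro E hE hne
    rw [isTri_iff f hgp, hX, hY] at hE
    rw [weight_eq, weight_eq, hX, hY]
    exact hI.mw E hE hne

end Pool.Agent.Results.MP_7a5e6c_co.LinearCanonicalOrder
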