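import Pool.Agent.MP7a5e6c.VFinal
import Pool.Agent.MP7a5e6c.Transfer

set_option autoImplicit false
open scoped Classical

namespace Pool.Agent.Results.MP_7a5e6c_co.ValleyTree

open Pool.Agent.MP7a5e6c

/-- Every triangulation `G(T, h)` is minimum weight drawable; it is even the unique minimum weight
triangulation of a suitable point set. The height zero may be repeated; the other heights are
distinct; and in every triangle of `T` without a vertex of height zero strictly between its ends
the middle vertex is not the highest. -/
theorem result (T : BT) (h : Fin (T.size + 1) → ℕ)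
    (hh : ∀ a b : Fin (T.size + 1), h a = h b → a = b ∨ h a = 0)
    (hT : ∀ i m k : Fin (T.size + 1), T.Tri 0 i m k → (∀ z, i < z → z < k → 0 < h z) →
      h m < max (h i) (h k)) :
    ∃ f : Fin (T.size + 1) → EuclideanSpace ℝ (Fin 2), Function.Injective f ∧
      IsTri f (htGraph T h) ∧
      (∀ E : SimpleGraph (Fin (T.size + 1)), IsTri f E → E ≠ htGraph T h →
        weight f (htGraph T h) < weight f E) := by
  obtain ⟨X, Y, hgp0, h1, h2⟩ := htV_mw (T := T) (h := h) ⟨hh, hT⟩
  set f : Fin (T.size + 1) → Pt := fun i => !₂[X i, Y i] with hf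
  have hX : cX f = X := by funext i; simp [cX, hf]
  have hY : cY f = Y := by funext i; simp [cY, hf]
  have hgp : GP (cX f) (cY f) := by rw [hX, hY]; exact hgp0
  refine ⟨f, injective_of_gp f hgp, ?_, ?_⟩
  · rw [isTri_iff f hgp, hX, hY]; exact h1
  · intro E hE hne
    rw [isTri_iff f hgp, hX, hY] at hE
    rw [weight_eq, weight_eq, hX, hY]
    exact h2 E hE hne

end Pool.Agent.Results.MP_7a5e6c_co.ValleyTree
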